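import Pool.Agent.Helper71.Formula.PD

/-! Partition of the positions of an `n × n` matrix into blocks of `t` positions in distinct rows
and columns (pieces of the cyclic diagonals). -/

set_option autoImplicit false

namespace Pool.Agent.Helper71.Fml

open MvPolynomial Finset

/-- The block of the positions `(r k, c k)`. -/
def blk {n t : ℕ} (r c : Fin t → Fin n) : Finset (Fin n × Fin n) := univ.image fun k => (r k, c k)

theorem sum_leavesIn {K V ι : Type} [DecidableEq V] (I : Finset ι) (D : ι → Finset V)
    (hD : ∀ i ∈ I, ∀ j ∈ I, ∀ v, v ∈ D i → v ∈ D j → i = j) (φ : Formula K V) :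
    ∑ i ∈ I, φ.leavesIn (D i) ≤ φ.size := by
  induction φ with
  | const c => simp [Formula.leavesIn]
  | var v =>
    simp only [Formula.leavesIn, Formula.size]
    rw [← Finset.card_filter, Finset.card_le_one]
    intro i hi j hj
    rw [mem_filter] at hi hj
    exact hD i hi.1 j hj.1 v hi.2 hj.2
  | add a b iha ihb =>
    simp only [Formula.leavesIn, Formula.size]
    rw [sum_add_distrib]
    exact add_le_add iha ihb
  | mul a b iha ihb =>
    simp only [Formula.leavesIn, Formula.size]
    rw [sum_add_distrib]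
    exact add_le_add iha ihb
  | div a b iha ihb =>
    simp only [Formula.leavesIn, Formula.size]
    rw [sum_add_distrib]
    exact add_le_add iha ihb

theorem blocks {K : Type} [Field K] (n t : ℕ) (ht : 1 ≤ t) (φ : Formula K (Fin n × Fin n))
    (N : ℕ) (h : ∀ r c : Fin t → Fin n, Function.Injective r → Function.Injective c →
      N ≤ φ.leavesIn (blk r c)) : n * (n / t) * N ≤ φ.size := by
  have hlt : ∀ (m : Fin (n / t)) (k : Fin t), (m : ℕ) * t + k < n := by
    intro m k
    have h1 : ((m : ℕ) + 1) * t ≤ n / t * t := Nat.mul_le_mul_right t m.2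
    have h2 := Nat.div_mul_le_self n t
    have h3 := k.2
    nlinarith
  let r : Fin n × Fin (n / t) → Fin t → Fin n := fun q k => ⟨(q.2 : ℕ) * t + k, hlt q.2 k⟩
  let c : Fin n × Fin (n / t) → Fin t → Fin n := fun q k =>
    ⟨((q.2 : ℕ) * t + k + q.1) % n, Nat.mod_lt _ (by have := q.1.2; omega)⟩
  have hr : ∀ q, Function.Injective (r q) := by
    intro q k k' hk
    have := congrArg Fin.val hk
    simp only [r] at this
    exact Fin.ext (by omega)
  have hc : ∀ q, Function.Injective (c q) := by
    intro q k k' hk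
    have h1 := congrArg Fin.val hk
    simp only [c] at h1
    have h2 : ((q.2 : ℕ) * t + k) ≡ ((q.2 : ℕ) * t + k') [MOD n] := Nat.ModEq.add_right_cancel' _ h1
    have h3 := Nat.ModEq.eq_of_lt_of_lt h2 (hlt q.2 k) (hlt q.2 k')
    exact Fin.ext (by omega)
  have hD : ∀ i ∈ (univ : Finset (Fin n × Fin (n / t))), ∀ j ∈ (univ : Finset (Fin n × Fin (n / t))),
      ∀ v, v ∈ blk (r i) (c i) → v ∈ blk (r j) (c j) → i = j := by
    intro i _ j _ v hi hj
    unfold blk at hi hj
    rw [mem_image] at hi hj
    obtain ⟨k, _, hk⟩ := hi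
    obtain ⟨k', _, hk'⟩ := hj
    rw [← hk', Prod.mk.injEq] at hk
    have h1 := congrArg Fin.val hk.1
    have h2 := congrArg Fin.val hk.2
    simp only [r, c] at h1 h2
    have h3 : (i.2 : ℕ) = j.2 := by
      have e1 : ((i.2 : ℕ) * t + k) / t = i.2 := by
        rw [Nat.add_div_of_dvd_right (Dvd.intro_left _ rfl), Nat.mul_div_cancel _ (by omega),
          Nat.div_eq_of_lt k.2, add_zero]
      have e2 : ((j.2 : ℕ) * t + k') / t = j.2 := by
        rw [Nat.add_div_of_dvd_right (Dvd.intro_left _ rfl), Nat.mul_div_cancel _ (by omega),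
          Nat.div_eq_of_lt k'.2, add_zero]
      rw [← e1, ← e2, h1]
    rw [h1] at h2
    have h4 : (i.1 : ℕ) ≡ (j.1 : ℕ) [MOD n] := Nat.ModEq.add_left_cancel' _ h2
    have h5 := Nat.ModEq.eq_of_lt_of_lt h4 i.1.2 j.1.2
    exact Prod.ext (Fin.ext h5) (Fin.ext h3)
  have h1 := sum_leavesIn univ (fun q => blk (r q) (c q)) hD φ
  refine le_trans ?_ h1
  calc n * (n / t) * N = ∑ _q : Fin n × Fin (n / t), N := by
        rw [sum_const, card_univ, Fintype.card_prod, Fintype.card_fin, Fintype.card_fin, smul_eq_mul]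
    _ ≤ _ := sum_le_sum fun q _ => h (r q) (c q) (hr q) (hc q)

/-- A formula without variables computes a constant. -/
theorem eval_const {K V : Type} [Field K] (φ : Formula K V) (h : φ.size = 0) :
    ∃ c : K, φ.eval = algebraMap K (FractionRing (MvPolynomial V K)) c := by
  induction φ with
  | const c => exact ⟨c, rfl⟩
  | var v => simp [Formula.size] at h
  | add a b iha ihb =>
    simp only [Formula.size] at h
    obtain ⟨x, hx⟩ := iha (by omega)
    obtain ⟨y, hy⟩ := ihb (by omega)
    exact ⟨x + y, by rw [Formula.eval, hx, hy, map_add]⟩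
  | mul a b iha ihb =>
    simp only [Formula.size] at h
    obtain ⟨x, hx⟩ := iha (by omega)
    obtain ⟨y, hy⟩ := ihb (by omega)
    exact ⟨x * y, by rw [Formula.eval, hx, hy, map_mul]⟩
  | div a b iha ihb =>
    simp only [Formula.size] at h
    obtain ⟨x, hx⟩ := iha (by omega)
    obtain ⟨y, hy⟩ := ihb (by omega)
    exact ⟨x / y, by rw [Formula.eval, hx, hy, map_div₀]⟩

theorem eval_permPoly' {K : Type} [Field K] (n : ℕ) (M : Fin n × Fin n → K) :
    eval M (permPoly K n) = (Matrix.of fun i j : Fin n => M (i, j)).permanent := by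
  unfold permPoly Matrix.permanent
  rw [map_sum]
  refine sum_congr rfl fun π _ => ?_
  rw [map_prod]
  refine prod_congr rfl fun i _ => ?_
  rw [Matrix.of_apply, Matrix.of_apply, eval_X]

/-- A formula for the permanent has a variable. -/
theorem one_le_size {K : Type} [Field K] (n : ℕ) (hn : 1 ≤ n) (φ : Formula K (Fin n × Fin n))
    (hφ : φ.eval = algebraMap (MvPolynomial (Fin n × Fin n) K) _ (permPoly K n)) :
    1 ≤ φ.size := by
  by_contra hcon
  obtain ⟨c, hc⟩ := eval_const φ (by omega)
  have h1 : permPoly K n = C c := by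
    apply IsFractionRing.injective (MvPolynomial (Fin n × Fin n) K)
      (FractionRing (MvPolynomial (Fin n × Fin n) K))
    rw [← hφ, hc]
    rfl
  have : Nonempty (Fin n) := ⟨⟨0, hn⟩⟩
  have h2 : eval (fun _ => (0 : K)) (permPoly K n) = 0 := by
    rw [eval_permPoly']
    exact Matrix.permanent_zero
  have h3 : eval (fun q : Fin n × Fin n => if q.1 = q.2 then (1 : K) else 0) (permPoly K n) = 1 := by
    rw [eval_permPoly']
    have e : (Matrix.of fun i j : Fin n => if i = j then (1 : K) else 0) = 1 := by
      ext i j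
      rw [Matrix.of_apply, Matrix.one_apply]
    exact (congrArg Matrix.permanent e).trans Matrix.permanent_one
  rw [h1, eval_C] at h2 h3
  exact zero_ne_one (h2.symm.trans h3)

end Pool.Agent.Helper71.Fml
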