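import Mathlib

/-! Project Formula (helper71, helper97): arithmetic formulas for the permanent have size
at least `c n^4 / log n`.  Definitions. -/

set_option autoImplicit false

namespace Pool.Agent.Helper71.Fml

/-- Arithmetic formulas over the field `K` in the variables `V`, with divisions. -/
inductive Formula (K V : Type) : Type
  | const : K → Formula K V
  | var : V → Formula K V
  | add : Formula K V → Formula K V → Formula K V
  | mul : Formula K V → Formula K V → Formula K V
  | div : Formula K V → Formula K V → Formula K V

namespace Formula

variable {K V : Type}

/-- The rational function computed by a formula (a division by zero gives zero). -/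
noncomputable def eval [Field K] : Formula K V → FractionRing (MvPolynomial V K)
  | const c => algebraMap (MvPolynomial V K) _ (MvPolynomial.C c)
  | var v => algebraMap (MvPolynomial V K) _ (MvPolynomial.X v)
  | add a b => a.eval + b.eval
  | mul a b => a.eval * b.eval
  | div a b => a.eval / b.eval

/-- The size of a formula: the number of its leaves that are labelled by variables. -/
def size : Formula K V → ℕ
  | const _ => 0
  | var _ => 1
  | add a b => a.size + b.size
  | mul a b => a.size + b.size
  | div a b => a.size + b.size

/-- The number of leaves of a formula labelled by a variable of `D`. -/
def leavesIn [DecidableEq V] (D : Finset V) : Formula K V → ℕ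
  | const _ => 0
  | var v => if v ∈ D then 1 else 0
  | add a b => a.leavesIn D + b.leavesIn D
  | mul a b => a.leavesIn D + b.leavesIn D
  | div a b => a.leavesIn D + b.leavesIn D

end Formula

end Pool.Agent.Helper71.Fml
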