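import Pool.Agent.Helper24.SQ.Rook

/-! Linear independence of the rook sums of the gadget. -/

set_option autoImplicit false
set_option linter.unusedSectionVars false

namespace Pool.Agent.Helper71.Fml

open Finset Pool.Agent.Helper24.SQ

variable {K A : Type} [Field K] [DecidableEq A] [Fintype A] {s : ℕ}

/-- The columns with the codes: `1` at the elements of the code of a row of the first kind and the
variable `y k` on the diagonal for the rows of the second kind. -/
def Cm (code : A → Finset (Fin s)) (y : Fin s → K) : A ⊕ Fin s → Fin s → K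
  | Sum.inl i, k => if k ∈ code i then 1 else 0
  | Sum.inr l, k => if l = k then y k else 0

/-- The function of the row `i`. -/
noncomputable def Pf (code : A → Finset (Fin s)) (y : Fin s → K) (i : A) : K :=
  E (Cm code y) (univ.erase (Sum.inl i)) univ

/-- The set of rows. -/
def AT (T : Finset (Fin s)) : Finset (A ⊕ Fin s) := univ.disjSum T

theorem inl_mem_AT (T : Finset (Fin s)) (i : A) : (Sum.inl i : A ⊕ Fin s) ∈ AT T := by
  simp [AT]

theorem inr_mem_AT (T : Finset (Fin s)) (k : Fin s) : (Sum.inr k : A ⊕ Fin s) ∈ AT T ↔ k ∈ T := by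
  simp [AT]

theorem AT_erase (T : Finset (Fin s)) (k : Fin s) :
    (AT T : Finset (A ⊕ Fin s)).erase (Sum.inr k) = AT (T.erase k) := by
  ext x
  rcases x with i | l
  · simp [AT]
  · simp [AT]

theorem step1 (code : A → Finset (Fin s)) (emb : Finset (Fin s) → A)
    (μ : Finset (Fin s) → K) (h : ∀ y : Fin s → K, ∑ S, μ S * Pf code y (emb S) = 0)
    (U : Finset (Fin s)) (y : Fin s → K) :
    ∑ S, μ S * E (Cm code y) ((AT Uᶜ).erase (Sum.inl (emb S))) Uᶜ = 0 := by
  induction U using Finset.induction_on generalizing y with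
  | empty =>
    have : (AT (∅ : Finset (Fin s))ᶜ : Finset (A ⊕ Fin s)) = univ := by
      ext x
      rcases x with i | l
      · simp [AT]
      · simp [AT]
    rw [this]
    simpa [Pf] using h y
  | insert k U hk ih =>
    have hk' : k ∈ Uᶜ := mem_compl.2 hk
    have hc : (insert k U)ᶜ = (Uᶜ).erase k := by
      ext x
      simp only [mem_compl, mem_insert, not_or, mem_erase]
    have hrow : ∀ (y : Fin s → K) (S : Finset (Fin s)),
        E (Cm code y) ((AT Uᶜ).erase (Sum.inl (emb S))) Uᶜ =
          E (Cm code y) ((AT (Uᶜ.erase k)).erase (Sum.inl (emb S))) Uᶜ +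
            y k * E (Cm code y) ((AT (Uᶜ.erase k)).erase (Sum.inl (emb S))) (Uᶜ.erase k) := by
      intro y S
      have hm : (Sum.inr k : A ⊕ Fin s) ∈ (AT Uᶜ).erase (Sum.inl (emb S)) :=
        mem_erase.2 ⟨by simp, (inr_mem_AT _ _).2 hk'⟩
      rw [E_row _ hm, Finset.erase_right_comm, AT_erase]
      congr 1
      rw [Finset.sum_eq_single_of_mem k hk']
      · simp [Cm]
      · intro l _ hl
        simp [Cm, hl.symm]
    have hind : ∀ (y : Fin s → K) (v : K) (S : Finset (Fin s)) (T : Finset (Fin s)),
        E (Cm code (Function.update y k v)) ((AT (Uᶜ.erase k)).erase (Sum.inl (emb S))) T =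
          E (Cm code y) ((AT (Uᶜ.erase k)).erase (Sum.inl (emb S))) T := by
      intro y v S T
      refine E_congr fun i hi l _ => ?_
      rcases i with i | l'
      · rfl
      · have h1 : l' ≠ k := by
          have := (inr_mem_AT _ _).1 (mem_of_mem_erase hi)
          exact (mem_erase.1 this).1
        by_cases h2 : l' = l
        · subst h2
          simp [Cm, Function.update_of_ne h1]
        · simp [Cm, h2]
    have h1 := ih (Function.update y k 1)
    have h0 := ih (Function.update y k 0)
    simp_rw [hrow, hind, Function.update_self] at h1 h0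
    rw [hc]
    have h3 : ∑ S, μ S * (E (Cm code y) ((AT (Uᶜ.erase k)).erase (Sum.inl (emb S))) Uᶜ +
        1 * E (Cm code y) ((AT (Uᶜ.erase k)).erase (Sum.inl (emb S))) (Uᶜ.erase k)) -
        ∑ S, μ S * (E (Cm code y) ((AT (Uᶜ.erase k)).erase (Sum.inl (emb S))) Uᶜ +
        0 * E (Cm code y) ((AT (Uᶜ.erase k)).erase (Sum.inl (emb S))) (Uᶜ.erase k)) = 0 := by
      rw [h1, h0, sub_zero]
    rw [← Finset.sum_sub_distrib] at h3
    rw [← h3]
    exact Finset.sum_congr rfl fun S _ => by ring

theorem indep (code : A → Finset (Fin s)) (emb : Finset (Fin s) → A)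
    (hemb : ∀ S, code (emb S) = S) (hfac : (s.factorial : K) ≠ 0)
    (μ : Finset (Fin s) → K) (h : ∀ y : Fin s → K, ∑ S, μ S * Pf code y (emb S) = 0) : μ = 0 := by
  -- the sums over supersets
  have hfac' : ∀ k : ℕ, k ≤ s → (k.factorial : K) ≠ 0 := by
    intro k hk h0
    apply hfac
    obtain ⟨m, hm⟩ := Nat.factorial_dvd_factorial hk
    rw [hm, Nat.cast_mul, h0, zero_mul]
  have hν : ∀ T : Finset (Fin s), ∑ S, μ S * (if T ⊆ S then 1 else 0) = 0 := by
    intro T
    induction T using Finset.strongInduction with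
    | H T ih =>
    have h1 := step1 code emb μ h Tᶜ (fun _ => 0)
    rw [compl_compl] at h1
    have h2 : ∀ S : Finset (Fin s), E (Cm code (fun _ => (0 : K))) ((AT T).erase (Sum.inl (emb S))) T =
        ∑ U ∈ T.powerset, (-1) ^ U.card * (U.card.factorial : K) * (if U ⊆ S then 1 else 0) *
          E (Cm code (fun _ => (0 : K))) (AT T) (T \ U) := by
      intro S
      rw [E_erase _ (inl_mem_AT T (emb S)) T]
      refine Finset.sum_congr rfl fun U _ => ?_
      have h3 : ∏ l ∈ U, Cm code (fun _ => (0 : K)) (Sum.inl (emb S)) l = if U ⊆ S then 1 else 0 := by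
        have : ∀ l, Cm code (fun _ => (0 : K)) (Sum.inl (emb S)) l = if l ∈ S then 1 else 0 := by
          intro l
          simp [Cm, hemb]
        simp_rw [this]
        split_ifs with hU
        · exact Finset.prod_eq_one fun l hl => if_pos (hU hl)
        · obtain ⟨l, hl, hl'⟩ := Finset.not_subset.1 hU
          exact Finset.prod_eq_zero hl (if_neg hl')
      rw [h3]
    simp_rw [h2, Finset.mul_sum] at h1
    rw [Finset.sum_comm] at h1
    have h4 : ∀ U ∈ T.powerset, U ≠ T → ∑ S, μ S * ((-1) ^ U.card * (U.card.factorial : K) *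
        (if U ⊆ S then 1 else 0) * E (Cm code (fun _ => (0 : K))) (AT T) (T \ U)) = 0 := by
      intro U hU hne
      have h5 := ih U ((mem_powerset.1 hU).ssubset_of_ne hne)
      have h6 : ∀ S : Finset (Fin s), μ S * ((-1) ^ U.card * (U.card.factorial : K) *
          (if U ⊆ S then 1 else 0) * E (Cm code (fun _ => (0 : K))) (AT T) (T \ U)) =
          ((-1) ^ U.card * (U.card.factorial : K) * E (Cm code (fun _ => (0 : K))) (AT T) (T \ U)) *
            (μ S * (if U ⊆ S then 1 else 0)) := fun S => by ring
      simp_rw [h6, ← Finset.mul_sum, h5, mul_zero]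
    rw [Finset.sum_eq_single_of_mem T (mem_powerset_self T) h4] at h1
    simp_rw [sdiff_self, Finset.bot_eq_empty, E_empty, mul_one] at h1
    have h7 : ∀ S : Finset (Fin s), μ S * ((-1) ^ T.card * (T.card.factorial : K) *
        (if T ⊆ S then 1 else 0)) = ((-1) ^ T.card * (T.card.factorial : K)) *
          (μ S * (if T ⊆ S then 1 else 0)) := fun S => by ring
    simp_rw [h7, ← Finset.mul_sum] at h1
    rcases mul_eq_zero.1 h1 with h8 | h8
    · exfalso
      rcases mul_eq_zero.1 h8 with h9 | h9
      · exact (pow_ne_zero _ (neg_ne_zero.2 one_ne_zero)) h9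
      · exact hfac' _ (by simpa using card_le_univ T) h9
    · exact h8
  -- inversion
  funext T
  show μ T = 0
  induction hn : s - T.card using Nat.strong_induction_on generalizing T with
  | _ n ih =>
  have h1 := hν T
  rw [Finset.sum_eq_single_of_mem T (mem_univ T)] at h1
  · simpa using h1
  · intro S _ hST
    by_cases hTS : T ⊆ S
    · have hlt : T.card < S.card := card_lt_card (hTS.ssubset_of_ne (Ne.symm hST))
      have hle : S.card ≤ s := by simpa using card_le_univ S
      rw [ih (s - S.card) (by omega) S rfl, zero_mul]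
    · rw [if_neg hTS, mul_zero]

end Pool.Agent.Helper71.Fml
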