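import Pool.Agent.Helper16.SQG.Core
import Pool.Agent.Helper71.Formula.Indep

/-! The permanent of the gadget. -/

set_option autoImplicit false
set_option linter.unusedSectionVars false

namespace Pool.Agent.Helper71.Fml

open Finset Pool.Agent.Helper24.SQ Helper16.SQG

section Zeon

variable {B Γ J : Type} [CommRing B] [DecidableEq Γ] [DecidableEq J]

/-- transposed version of the expansion -/
theorem prod_cols (x : Γ → B) (hx : ∀ c, x c * x c = 0) (Y : Γ → J → B) (m : ℕ) (T : Finset J) :
    ∀ S : Finset Γ, S.card = T.card + m →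
      (∑ c ∈ S, x c) ^ m * ∏ l ∈ T, ∑ c ∈ S, Y c l * x c =
        (m.factorial : B) * E Y S T * ∏ c ∈ S, x c := by
  induction T using Finset.induction_on with
  | empty =>
    intro S hS
    have hS' : S.card = m := by simpa using hS
    rw [prod_empty, mul_one, E_empty, mul_one, ← hS']
    exact (sum_pow hx S).1
  | insert l T hl ih =>
    intro S hS
    rw [card_insert_of_notMem hl] at hS
    rw [prod_insert hl, E_insert Y S hl, mul_left_comm, Finset.sum_mul, Finset.mul_sum,
      Finset.sum_mul]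
    refine Finset.sum_congr rfl fun c hc => ?_
    have h1 := ih (S.erase c) (by rw [card_erase_of_mem hc]; omega)
    have hsplit : ∀ f : Γ → B, ∑ c' ∈ S, f c' - ∑ c' ∈ S.erase c, f c' = f c := by
      intro f
      rw [← Finset.add_sum_erase S f hc]
      ring
    have h2 : x c * (∑ c ∈ S, x c) ^ m = x c * (∑ c ∈ S.erase c, x c) ^ m := by
      apply mul_pow_congr
      rw [hsplit x, hx]
    have h3 : x c * ∏ l ∈ T, ∑ c ∈ S, Y c l * x c =
        x c * ∏ l ∈ T, ∑ c ∈ S.erase c, Y c l * x c := by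
      apply mul_prod_congr
      intro l' _
      rw [hsplit (fun c => Y c l' * x c), mul_left_comm, hx, mul_zero]
    rw [← mul_prod_erase S x hc]
    linear_combination (Y c l * ∏ l ∈ T, ∑ c ∈ S, Y c l * x c) * h2 +
      (Y c l * (∑ c ∈ S.erase c, x c) ^ m) * h3 + (Y c l * x c) * h1

theorem prod_cols_erase [Fintype Γ] [Fintype J] (x : Γ → B) (hx : ∀ c, x c * x c = 0)
    (Y : Γ → J → B) (m : ℕ) (c : Γ) (h : Fintype.card Γ = Fintype.card J + m + 1) :
    x c * ((∑ c, x c) ^ m * ∏ l, ∑ c, Y c l * x c) =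
        (m.factorial : B) * E Y (univ.erase c) univ * ∏ c, x c := by
  have hc : c ∈ (univ : Finset Γ) := mem_univ c
  have h1 := prod_cols x hx Y m (univ : Finset J) (univ.erase c)
    (by rw [card_erase_of_mem hc, card_univ, card_univ]; omega)
  have hsplit : ∀ f : Γ → B, ∑ c', f c' - ∑ c' ∈ univ.erase c, f c' = f c := by
    intro f
    rw [← Finset.add_sum_erase univ f hc]
    ring
  have h2 : x c * (∑ c, x c) ^ m = x c * (∑ c ∈ univ.erase c, x c) ^ m := by
    apply mul_pow_congr
    rw [hsplit x, hx]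
  have h3 : x c * ∏ l, ∑ c, Y c l * x c =
      x c * ∏ l, ∑ c ∈ univ.erase c, Y c l * x c := by
    apply mul_prod_congr
    intro l' _
    rw [hsplit (fun c => Y c l' * x c), mul_left_comm, hx, mul_zero]
  rw [← mul_prod_erase univ x hc]
  linear_combination (∏ l, ∑ c, Y c l * x c) * h2 +
      ((∑ c ∈ univ.erase c, x c) ^ m) * h3 + (x c) * h1

/-- the first half of the gadget -/
theorem prod_rows_erase [Fintype Γ] [Fintype J] (Y : Γ → J → B) (a : ℕ) (u ω : B)
    (hu : u ^ a = ω) (hu' : u ^ (a + 1) = 0) (z : J → B) (hz : ∀ l, z l * z l = 0) (i : Γ)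
    (h : Fintype.card Γ = Fintype.card J + a + 1) :
    ∏ r ∈ univ.erase i, (u + ∑ l, Y r l * z l) =
      E Y (univ.erase i) univ * (ω * ∏ l, z l) := by
  have hcard : (univ.erase i : Finset Γ).card = Fintype.card J + a := by
    rw [card_erase_of_mem (mem_univ i), card_univ]; omega
  rw [prod_expand Y u z hz, Finset.sum_eq_single_of_mem univ (mem_univ _)]
  · rw [hcard, card_univ, Nat.add_sub_cancel_left, hu]
    ring
  · intro T _ hT
    have hlt : T.card < Fintype.card J := by
      rw [← card_univ]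
      exact card_lt_card ((subset_univ T).ssubset_of_ne hT)
    rw [hcard, show Fintype.card J + a - T.card = (a + 1) + (Fintype.card J - T.card - 1) by omega,
      pow_add, hu', zero_mul, zero_mul, zero_mul]

end Zeon

section Gadget

variable {K A A' : Type} [Field K] [DecidableEq A] [Fintype A] [DecidableEq A'] [Fintype A']
  {s a a' : ℕ}

/-- The rows of the gadget. -/
abbrev Rw (A : Type) (s a' : ℕ) : Type := (A ⊕ Fin s) ⊕ (Fin a' ⊕ Fin s)

/-- The columns of the gadget. -/
abbrev Cl (A' : Type) (s a : ℕ) : Type := (Fin a ⊕ Fin s) ⊕ (A' ⊕ Fin s)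

/-- The entries of the gadget. -/
def gad (code : A → Finset (Fin s)) (code' : A' → Finset (Fin s)) (y z : Fin s → K) :
    Rw A s a' → Cl A' s a → K
  | Sum.inl _, Sum.inl (Sum.inl _) => 1
  | Sum.inl r, Sum.inl (Sum.inr k) => Cm code y r k
  | Sum.inl _, Sum.inr _ => 0
  | Sum.inr _, Sum.inl _ => 0
  | Sum.inr (Sum.inl _), Sum.inr _ => 1
  | Sum.inr (Sum.inr l), Sum.inr c => Cm code' z c l

/-- The minor of the gadget. -/
def gadMinor (code : A → Finset (Fin s)) (code' : A' → Finset (Fin s)) (y z : Fin s → K)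
    (i : A) (j : A') (r : Rw A s a') (c : Cl A' s a) : K :=
  if r = Sum.inl (Sum.inl i) then (if c = Sum.inr (Sum.inl j) then 1 else 0)
    else gad code code' y z r c

theorem E_map {R S I J : Type} [CommRing R] [CommRing S] [DecidableEq I] [DecidableEq J]
    (f : R →+* S) (Y : I → J → R) (A : Finset I) (T : Finset J) :
    E (fun i l => f (Y i l)) A T = f (E Y A T) := by
  unfold E
  simp only [map_sum, map_prod]

theorem gad_perm (n : ℕ) (code : A → Finset (Fin s)) (code' : A' → Finset (Fin s))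
    (hA : Fintype.card A = a + 1) (hA' : Fintype.card A' = a' + 1)
    (eR : Fin n ≃ Rw A s a') (eC : Fin n ≃ Cl A' s a) (y z : Fin s → K) (i : A) (j : A') :
    (Matrix.of fun r c : Fin n => gadMinor code code' y z i j (eR r) (eC c)).permanent =
      (a.factorial : K) * (a'.factorial : K) * (Pf code y i * Pf code' z j) := by
  let κ := Cl A' s a
  let B := SqR κ K
  let f : K →+* B := algebraMap K B
  let x : κ → B := xs κ K
  have hx : ∀ c, x c * x c = 0 := xs_sq κ K
  apply xs_inj κ K
  have key := prod_forms' f eR eC (gadMinor code code' y z i j) x hx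
  refine key.symm.trans ?_
  have f0 : f 0 = 0 := map_zero f
  have f1 : f 1 = 1 := map_one f
  -- the sums
  set u : B := ∑ k : Fin a, x (Sum.inl (Sum.inl k)) with hu
  have hupow := sum_pow (x := fun k : Fin a => x (Sum.inl (Sum.inl k))) (fun k => hx _) univ
  rw [card_univ, Fintype.card_fin] at hupow
  obtain ⟨hu1, hu2⟩ := hupow
  have hrow1 : ∀ r : A ⊕ Fin s, r ≠ Sum.inl i →
      ∑ c, f (gadMinor code code' y z i j (Sum.inl r : Rw A s a') c) * x c =
        u + ∑ l, f (Cm code y r l) * x (Sum.inl (Sum.inr l)) := by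
    intro r hr
    have hr' : (Sum.inl r : Rw A s a') ≠ Sum.inl (Sum.inl i) := fun h => hr (Sum.inl_injective h)
    rw [Fintype.sum_sum_type, Fintype.sum_sum_type, Fintype.sum_sum_type]
    simp only [gadMinor, if_neg hr', gad, f0, f1, zero_mul, one_mul, sum_const_zero, add_zero]
    rfl
  have hrow0 : ∑ c, f (gadMinor code code' y z i j (Sum.inl (Sum.inl i) : Rw A s a') c) * x c =
      x (Sum.inr (Sum.inl j)) := by
    rw [Finset.sum_eq_single (Sum.inr (Sum.inl j))]
    · simp [gadMinor, f1]
    · intro c _ hc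
      simp [gadMinor, hc, f0]
    · intro h
      exact (h (mem_univ _)).elim
  have hrow2 : ∀ k : Fin a', ∑ c, f (gadMinor code code' y z i j (Sum.inr (Sum.inl k)) c) * x c =
      ∑ c : A' ⊕ Fin s, x (Sum.inr c) := by
    intro k
    have hr' : (Sum.inr (Sum.inl k) : Rw A s a') ≠ Sum.inl (Sum.inl i) := by simp
    rw [Fintype.sum_sum_type]
    simp only [gadMinor, if_neg hr', gad, f0, f1, zero_mul, one_mul, sum_const_zero, zero_add]
  have hrow3 : ∀ l : Fin s,
      ∑ c, f (gadMinor code code' y z i j (Sum.inr (Sum.inr l) : Rw A s a') c) * x c =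
      ∑ c : A' ⊕ Fin s, f (Cm code' z c l) * x (Sum.inr c) := by
    intro l
    have hr' : (Sum.inr (Sum.inr l) : Rw A s a') ≠ Sum.inl (Sum.inl i) := by simp
    rw [Fintype.sum_sum_type]
    simp only [gadMinor, if_neg hr', gad, f0, zero_mul, sum_const_zero, zero_add]
  rw [Fintype.prod_sum_type, Fintype.prod_sum_type (fun b : Fin a' ⊕ Fin s => ∑ c,
    f (gadMinor code code' y z i j (Sum.inr b) c) * x c)]
  rw [← mul_prod_erase univ _ (mem_univ (Sum.inl i : A ⊕ Fin s)), hrow0]
  rw [Finset.prod_congr rfl fun r hr => hrow1 r (ne_of_mem_erase hr)]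
  rw [Finset.prod_congr rfl fun k (_ : k ∈ (univ : Finset (Fin a'))) => hrow2 k]
  rw [Finset.prod_congr rfl fun l (_ : l ∈ (univ : Finset (Fin s))) => hrow3 l]
  have h1 := prod_rows_erase (fun r l => f (Cm code y r l)) a u
    ((a.factorial : B) * ∏ k : Fin a, x (Sum.inl (Sum.inl k))) hu1 hu2
    (fun l => x (Sum.inl (Sum.inr l))) (fun l => hx _) (Sum.inl i : A ⊕ Fin s)
    (by rw [Fintype.card_sum, Fintype.card_fin, hA]; omega)
  have h2 := prod_cols_erase (fun c : A' ⊕ Fin s => x (Sum.inr c)) (fun c => hx _)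
    (fun c l => f (Cm code' z c l)) a' (Sum.inl j)
    (by rw [Fintype.card_sum, Fintype.card_fin, hA']; omega)
  rw [E_map] at h1 h2
  rw [h1, prod_const, card_univ, Fintype.card_fin]
  have hxx : ∏ c, x c = ((∏ k : Fin a, x (Sum.inl (Sum.inl k))) *
      ∏ l : Fin s, x (Sum.inl (Sum.inr l))) * ∏ c : A' ⊕ Fin s, x (Sum.inr c) := by
    rw [Fintype.prod_sum_type, Fintype.prod_sum_type]
  rw [hxx]
  have hf : algebraMap K (SqR κ K) ((a.factorial : K) * (a'.factorial : K) *
      (Pf code y i * Pf code' z j)) = (a.factorial : B) * (a'.factorial : B) *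
        (f (Pf code y i) * f (Pf code' z j)) := by
    simp only [map_mul, map_natCast]
    rfl
  rw [hf]
  unfold Pf
  linear_combination (f (E (Cm code y) (univ.erase (Sum.inl i)) univ) *
    ((a.factorial : B) * (∏ k : Fin a, x (Sum.inl (Sum.inl k))) *
      ∏ l : Fin s, x (Sum.inl (Sum.inr l)))) * h2

end Gadget

end Pool.Agent.Helper71.Fml
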