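import Pool.Agent.Helper71.Formula.Blocks
import Pool.Agent.Helper71.Formula.GadPerm

/-! The gadget: for every block of `2 s` positions, `4 ^ s` partial derivatives of the permanent are
linearly independent as functions of the variables of the block, for suitable values of the other
variables. -/

set_option autoImplicit false

namespace Pool.Agent.Helper71.Fml

open MvPolynomial Finset

theorem exists_equiv {n s : ℕ} {α β : Type} [Fintype α] [Fintype β] (ψ : Fin s ⊕ Fin s → Fin n)
    (hψ : Function.Injective ψ) (hcard : Fintype.card α + Fintype.card β + 2 * s = n) :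
    ∃ e : Fin n ≃ (α ⊕ Fin s) ⊕ (β ⊕ Fin s), (∀ k, e (ψ (Sum.inl k)) = Sum.inl (Sum.inr k)) ∧
      ∀ k, e (ψ (Sum.inr k)) = Sum.inr (Sum.inr k) := by
  classical
  have h1 : Fintype.card ↥(Set.range ψ)ᶜ = Fintype.card (α ⊕ β) := by
    rw [Fintype.card_compl_set, Set.card_range_of_injective hψ, Fintype.card_sum, Fintype.card_sum]
    simp only [Fintype.card_fin]
    omega
  let h : α ⊕ β ≃ ↥(Set.range ψ)ᶜ := Fintype.equivOfCardEq h1.symm
  let e' : (Fin s ⊕ Fin s) ⊕ (α ⊕ β) ≃ Fin n :=
    (Equiv.sumCongr (Equiv.ofInjective ψ hψ) h).trans (Equiv.Set.sumCompl (Set.range ψ))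
  have he' : ∀ q, e' (Sum.inl q) = ψ q := by
    intro q
    simp [e', Equiv.Set.sumCompl_apply_inl, Equiv.ofInjective_apply]
  let g : (Fin s ⊕ Fin s) ⊕ (α ⊕ β) ≃ (α ⊕ Fin s) ⊕ (β ⊕ Fin s) :=
    { toFun := fun q => match q with
        | Sum.inl (Sum.inl k) => Sum.inl (Sum.inr k)
        | Sum.inl (Sum.inr k) => Sum.inr (Sum.inr k)
        | Sum.inr (Sum.inl a) => Sum.inl (Sum.inl a)
        | Sum.inr (Sum.inr b) => Sum.inr (Sum.inl b)
      invFun := fun q => match q with
        | Sum.inl (Sum.inr k) => Sum.inl (Sum.inl k)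
        | Sum.inr (Sum.inr k) => Sum.inl (Sum.inr k)
        | Sum.inl (Sum.inl a) => Sum.inr (Sum.inl a)
        | Sum.inr (Sum.inl b) => Sum.inr (Sum.inr b)
      left_inv := by
        rintro ((_ | _) | (_ | _)) <;> rfl
      right_inv := by
        rintro ((_ | _) | (_ | _)) <;> rfl }
  refine ⟨e'.symm.trans g, fun k => ?_, fun k => ?_⟩
  · rw [← he', Equiv.trans_apply, Equiv.symm_apply_apply]
    rfl
  · rw [← he', Equiv.trans_apply, Equiv.symm_apply_apply]
    rfl

theorem gadget {K : Type} [Field K] (n s : ℕ) (hs : 2 ^ (s + 1) + 2 * s ≤ n)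
    (hK : (n.factorial : K) ≠ 0) (r c : Fin (2 * s) → Fin n) (hr : Function.Injective r)
    (hc : Function.Injective c) :
    ∃ (p : Finset (Fin s) × Finset (Fin s) → Fin n × Fin n) (x : Fin n × Fin n → K),
      (∀ i, p i ∉ blk r c) ∧
      LinearIndependent K (fun i => fun b : Fin n × Fin n → K =>
        eval (fun v => if v ∈ blk r c then b v else x v) (pderiv (p i) (permPoly K n))) := by
  classical
  -- sizes
  obtain ⟨a, ha⟩ : ∃ a, 2 ^ s = a + 1 := ⟨2 ^ s - 1, (Nat.sub_add_cancel Nat.one_le_two_pow).symm⟩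
  obtain ⟨a', ha'⟩ : ∃ a', n = 2 * s + a + 1 + a' := by
    refine ⟨n - (2 * s + a + 1), ?_⟩
    rw [pow_succ] at hs
    omega
  have haa' : a + 1 ≤ a' + 1 := by
    rw [pow_succ] at hs
    omega
  have hfac : ∀ k : ℕ, k ≤ n → (k.factorial : K) ≠ 0 := by
    intro k hk h0
    apply hK
    obtain ⟨m, hm⟩ := Nat.factorial_dvd_factorial hk
    rw [hm, Nat.cast_mul, h0, zero_mul]
  -- the codes
  let A := Finset (Fin s)
  have hA : Fintype.card A = a + 1 := by
    show Fintype.card (Finset (Fin s)) = a + 1
    rw [Fintype.card_finset, Fintype.card_fin, ha]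
  obtain ⟨emb, hemb⟩ : ∃ emb : Finset (Fin s) ↪ Fin (a' + 1), True := by
    have : Nonempty (Finset (Fin s) ↪ Fin (a' + 1)) := by
      apply Function.Embedding.nonempty_of_card_le
      rw [Fintype.card_finset, Fintype.card_fin, Fintype.card_fin, ha]
      exact haa'
    exact ⟨this.some, trivial⟩
  let code' : Fin (a' + 1) → Finset (Fin s) := Function.invFun emb
  have hcode' : ∀ S, code' (emb S) = S := fun S => Function.leftInverse_invFun emb.injective S
  let code : A → Finset (Fin s) := id
  -- the equivalences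
  let q : Fin s ⊕ Fin s ≃ Fin (2 * s) := finSumFinEquiv.trans (finCongr (by omega))
  obtain ⟨eR, hR1, hR2⟩ := exists_equiv (α := A) (β := Fin a') (fun k => r (q k))
    (hr.comp q.injective) (by rw [hA, Fintype.card_fin]; omega)
  obtain ⟨eC, hC1, hC2⟩ := exists_equiv (α := Fin a) (β := Fin (a' + 1)) (fun k => c (q k))
    (hc.comp q.injective) (by rw [Fintype.card_fin, Fintype.card_fin]; omega)
  have hblk : ∀ v : Fin n × Fin n, v ∈ blk r c ↔ ∃ k, v = (r (q k), c (q k)) := by
    intro v
    simp only [blk, mem_image, mem_univ, true_and]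
    constructor
    · rintro ⟨k, rfl⟩
      exact ⟨q.symm k, by simp⟩
    · rintro ⟨k, rfl⟩
      exact ⟨q k, rfl⟩
  let x : Fin n × Fin n → K := fun v => gad code code' (fun _ => 0) (fun _ => 0) (eR v.1) (eC v.2)
  let p : Finset (Fin s) × Finset (Fin s) → Fin n × Fin n := fun i =>
    (eR.symm (Sum.inl (Sum.inl i.1)), eC.symm (Sum.inr (Sum.inl (emb i.2))))
  have hp : ∀ i, p i ∉ blk r c := by
    intro i hi
    obtain ⟨k, hk⟩ := (hblk _).1 hi
    have h1 : eR.symm (Sum.inl (Sum.inl i.1)) = r (q k) := congrArg Prod.fst hk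
    rw [Equiv.symm_apply_eq] at h1
    rcases k with k | k
    · rw [hR1] at h1
      simp at h1
    · rw [hR2] at h1
      simp at h1
  refine ⟨p, x, hp, ?_⟩
  -- the values
  let bb : (Fin s → K) → (Fin s → K) → Fin n × Fin n → K := fun y z v =>
    match eR v.1 with
    | Sum.inl (Sum.inr k) => y k
    | Sum.inr (Sum.inr k) => z k
    | _ => 0
  have hval : ∀ (y z : Fin s → K) (v : Fin n × Fin n),
      (if v ∈ blk r c then bb y z v else x v) = gad code code' y z (eR v.1) (eC v.2) := by
    intro y z v
    split_ifs with hv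
    · obtain ⟨k, rfl⟩ := (hblk _).1 hv
      rcases k with k | k
      · simp only [bb, hR1, hC1, gad, Cm, if_true]
      · simp only [bb, hR2, hC2, gad, Cm, if_true]
    · show gad code code' (fun _ => 0) (fun _ => 0) (eR v.1) (eC v.2) = _
      rcases hR : eR v.1 with (i | l) | (i | l) <;> rcases hC : eC v.2 with (j | k) | (j | k) <;>
        simp only [gad, Cm]
      · split_ifs with hlk
        · exfalso
          subst hlk
          apply hv
          rw [hblk]
          refine ⟨Sum.inl l, Prod.ext ?_ ?_⟩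
          · exact eR.injective (hR.trans (hR1 l).symm)
          · exact eC.injective (hC.trans (hC1 l).symm)
        · rfl
      · split_ifs with hlk
        · exfalso
          subst hlk
          apply hv
          rw [hblk]
          refine ⟨Sum.inr k, Prod.ext ?_ ?_⟩
          · exact eR.injective (hR.trans (hR2 k).symm)
          · exact eC.injective (hC.trans (hC2 k).symm)
        · rfl
  have hev : ∀ (y z : Fin s → K) (i : Finset (Fin s) × Finset (Fin s)),
      eval (fun v => if v ∈ blk r c then bb y z v else x v) (pderiv (p i) (permPoly K n)) =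
        (a.factorial : K) * (a'.factorial : K) * (Pf code y i.1 * Pf code' z (emb i.2)) := by
    intro y z i
    rw [← gad_perm (a := a) (a' := a') n code code' hA (Fintype.card_fin _) eR eC y z i.1 (emb i.2),
      eval_pderiv_permPoly]
    congr 1
    ext r' c'
    simp only [Matrix.of_apply, gadMinor, hval]
    congr 1
    · simp only [eq_iff_iff]
      rw [Equiv.eq_symm_apply]
    · congr 1
      simp only [eq_iff_iff]
      rw [Equiv.eq_symm_apply]
  rw [Fintype.linearIndependent_iff]
  intro μ hμ
  have h1 : ∀ y z : Fin s → K, ∑ S' : Finset (Fin s), (∑ S : Finset (Fin s), μ (S, S') *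
      Pf code y S) * Pf code' z (emb S') = 0 := by
    intro y z
    have h2 := congrFun hμ (bb y z)
    simp only [Finset.sum_apply, Pi.smul_apply, smul_eq_mul, Pi.zero_apply, hev] at h2
    have h3 : (a.factorial : K) * (a'.factorial : K) ≠ 0 :=
      mul_ne_zero (hfac a (by omega)) (hfac a' (by omega))
    have h4 : ∑ i : Finset (Fin s) × Finset (Fin s), μ i * ((a.factorial : K) *
        (a'.factorial : K) * (Pf code y i.1 * Pf code' z (emb i.2))) =
        ((a.factorial : K) * (a'.factorial : K)) * ∑ S' : Finset (Fin s),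
          (∑ S : Finset (Fin s), μ (S, S') * Pf code y S) * Pf code' z (emb S') := by
      rw [Fintype.sum_prod_type_right, Finset.mul_sum]
      refine Finset.sum_congr rfl fun S' _ => ?_
      rw [Finset.sum_mul, Finset.mul_sum]
      exact Finset.sum_congr rfl fun S _ => by ring
    rw [h4] at h2
    exact (mul_eq_zero.1 h2).resolve_left h3
  rintro ⟨S, S'⟩
  have h5 : ∀ y : Fin s → K, ∑ S, μ (S, S') * Pf code y S = 0 := by
    intro y
    have := indep code' emb hcode' (hfac s (by omega)) (fun S' => ∑ S, μ (S, S') * Pf code y S)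
      (fun z => h1 y z)
    exact congrFun this S'
  have h6 := indep code (fun S => S) (fun S => rfl) (hfac s (by omega)) (fun S => μ (S, S')) h5
  exact congrFun h6 S

end Pool.Agent.Helper71.Fml
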