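import Pool.Agent.Helper97.Form.Kal

/-! Kalorkoti's bound in the form used here. -/

set_option autoImplicit false

namespace Pool.Agent.Helper71.Fml

open MvPolynomial

theorem kalorkoti {K V : Type} [Field K] [Fintype V] [DecidableEq V] (D : Finset V)
    (φ : Formula K V) (F : MvPolynomial V K)
    (hφ : φ.eval = algebraMap (MvPolynomial V K) _ F) {ι : Type} [Fintype ι] (p : ι → V)
    (hp : ∀ i, p i ∉ D) (h2 : 2 ≤ Fintype.card ι) (x : V → K)
    (hli : LinearIndependent K (fun i => fun b : V → K =>
      MvPolynomial.eval (fun v => if v ∈ D then b v else x v) (pderiv (p i) F))) :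
    Fintype.card ι ≤ 5 * φ.leavesIn D := by
  have := Pool.Agent.Helper97.Form.kalorkoti D φ F hφ p hp h2 x hli
  omega

end Pool.Agent.Helper71.Fml
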