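import Mathlib

/-! The numerical part. -/

set_option autoImplicit false

namespace Pool.Agent.Helper71.Fml

theorem two_mul_le_two_pow (l : ℕ) (hl : 3 ≤ l) : 2 * (l - 2) ≤ 2 ^ (l - 1) := by
  induction l, hl using Nat.le_induction with
  | base => norm_num
  | succ m hm ih =>
    have h1 : 2 ^ (m + 1 - 1) = 2 * 2 ^ (m - 1) := by
      rw [← pow_succ']
      congr 1
      omega
    have h2 : 2 ≤ 2 ^ (m - 1) := by
      calc 2 = 2 ^ 1 := by norm_num
        _ ≤ 2 ^ (m - 1) := Nat.pow_le_pow_right (by norm_num) (by omega)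
    rw [h1]
    omega

theorem numeric : ∃ c : ℝ, 0 < c ∧ ∀ n L : ℕ, 2 ≤ n → 1 ≤ L →
    (∀ s : ℕ, 1 ≤ s → 2 ^ (s + 1) + 2 * s ≤ n → n * (n / (2 * s)) * 4 ^ s ≤ 5 * L) →
    c * (n : ℝ) ^ 4 / Real.log n ≤ L := by
  refine ⟨1 / 10000, by norm_num, fun n L hn hL H => ?_⟩
  have hlog2 : (1 : ℝ) / 2 ≤ Real.log 2 := by
    have := Real.log_two_gt_d9
    linarith
  have hnR : (2 : ℝ) ≤ n := by exact_mod_cast hn
  have hlogn : Real.log 2 ≤ Real.log n := Real.log_le_log (by norm_num) hnR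
  have hlogpos : 0 < Real.log n := by linarith
  have hLR : (1 : ℝ) ≤ L := by exact_mod_cast hL
  rw [div_le_iff₀ hlogpos]
  by_cases h8 : n < 8
  · have hn7 : (n : ℝ) ≤ 7 := by
      have : n ≤ 7 := by omega
      exact_mod_cast this
    have h4 : (n : ℝ) ^ 4 ≤ 7 ^ 4 := pow_le_pow_left₀ (by linarith) hn7 4
    have h5 : (1 : ℝ) / 2 ≤ L * Real.log n := by nlinarith
    nlinarith
  · push Not at h8
    set l := Nat.log 2 n with hl
    have hl1 : 2 ^ l ≤ n := Nat.pow_log_le_self 2 (by omega)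
    have hl2 : n < 2 ^ (l + 1) := Nat.lt_pow_succ_log_self (by norm_num) n
    have hl3 : 3 ≤ l := by
      by_contra h
      push Not at h
      have : 2 ^ (l + 1) ≤ 2 ^ 3 := Nat.pow_le_pow_right (by norm_num) (by omega)
      omega
    have hs1 : 1 ≤ l - 2 := by omega
    have hhalf : 2 * 2 ^ (l - 1) = 2 ^ l := by
      rw [← pow_succ']
      congr 1
      omega
    have hs2 : 2 ^ (l - 2 + 1) + 2 * (l - 2) ≤ n := by
      have e1 : l - 2 + 1 = l - 1 := by omega
      rw [e1]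
      have := two_mul_le_two_pow l hl3
      omega
    have h := H (l - 2) hs1 hs2
    -- 4 ^ (l - 2) * 64 ≥ n ^ 2
    have h64 : n * n ≤ 64 * 4 ^ (l - 2) := by
      have e : (64 : ℕ) * 4 ^ (l - 2) = 2 ^ (l + 1) * 2 ^ (l + 1) := by
        have e2 : l + 1 = (l - 2) + 3 := by omega
        rw [e2, pow_add, show (4 : ℕ) = 2 * 2 by norm_num, mul_pow]
        ring
      rw [e]
      exact Nat.mul_le_mul hl2.le hl2.le
    -- floor
    have hfl : n ≤ 4 * (l - 2) * (n / (2 * (l - 2))) := by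
      have hdn : 2 * (l - 2) ≤ n := by
        have := Nat.zero_le (2 ^ (l - 2 + 1))
        omega
      have hd1 : 0 < 2 * (l - 2) := by omega
      set d := 2 * (l - 2) with hd
      have hq : 1 ≤ n / d := (Nat.one_le_div_iff hd1).2 hdn
      have hmod := Nat.div_add_mod n d
      have hlt := Nat.mod_lt n hd1
      have : d ≤ d * (n / d) := Nat.le_mul_of_pos_right _ hq
      have e4 : 4 * (l - 2) * (n / d) = 2 * (d * (n / d)) := by
        rw [hd]; ring
      rw [e4]
      omega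
    -- combine
    have hcomb : n ^ 4 ≤ 1280 * (l - 2) * L := by
      calc n ^ 4 = n * n * (n * n) := by ring
        _ ≤ n * (4 * (l - 2) * (n / (2 * (l - 2)))) * (64 * 4 ^ (l - 2)) := by
            exact Nat.mul_le_mul (Nat.mul_le_mul_left _ hfl) h64
        _ = 256 * (l - 2) * (n * (n / (2 * (l - 2))) * 4 ^ (l - 2)) := by ring
        _ ≤ 256 * (l - 2) * (5 * L) := Nat.mul_le_mul_left _ h
        _ = 1280 * (l - 2) * L := by ring
    have hcombR : (n : ℝ) ^ 4 ≤ 1280 * ((l - 2 : ℕ) : ℝ) * L := by exact_mod_cast hcomb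
    have hll : ((l - 2 : ℕ) : ℝ) ≤ 2 * Real.log n := by
      have h1 : ((l - 2 : ℕ) : ℝ) ≤ (l : ℝ) := by exact_mod_cast Nat.sub_le _ _
      have h2 : (l : ℝ) * Real.log 2 ≤ Real.log n := by
        rw [← Real.log_pow]
        exact Real.log_le_log (by positivity) (by exact_mod_cast hl1)
      have h3 : (0 : ℝ) ≤ l := Nat.cast_nonneg l
      nlinarith
    have hL0 : (0 : ℝ) ≤ L := by linarith
    have : (n : ℝ) ^ 4 ≤ 1280 * (2 * Real.log n) * L := by
      refine hcombR.trans ?_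
      exact mul_le_mul_of_nonneg_right (mul_le_mul_of_nonneg_left hll (by norm_num)) hL0
    nlinarith [mul_nonneg hL0 hlogpos.le]

end Pool.Agent.Helper71.Fml
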