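import Pool.Agent.Helper71.Formula.Defs

/-! The permanent polynomial and its partial derivatives. -/

set_option autoImplicit false

namespace Pool.Agent.Helper71.Fml

open MvPolynomial Finset

/-- The permanent of the generic `n × n` matrix. -/
noncomputable def permPoly (K : Type) [Field K] (n : ℕ) : MvPolynomial (Fin n × Fin n) K :=
  (Matrix.of fun i j : Fin n => (X (i, j) : MvPolynomial (Fin n × Fin n) K)).permanent

/-- The Leibniz rule for a finite product. -/
theorem pderiv_finset_prod {K V ι : Type} [Field K] [DecidableEq ι] (v : V) (s : Finset ι)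
    (f : ι → MvPolynomial V K) :
    pderiv v (∏ x ∈ s, f x) = ∑ c ∈ s, (∏ x ∈ s.erase c, f x) * pderiv v (f c) := by
  induction s using Finset.induction_on with
  | empty => simp
  | insert a s ha ih =>
    rw [Finset.prod_insert ha, Derivation.leibniz, ih, Finset.sum_insert ha,
      Finset.erase_insert ha, smul_eq_mul, smul_eq_mul, add_comm, Finset.mul_sum]
    congr 1
    refine Finset.sum_congr rfl fun c hc => ?_
    have hac : a ≠ c := fun h => ha (h ▸ hc)
    rw [Finset.erase_insert_of_ne hac, Finset.prod_insert (fun h => ha (Finset.mem_of_mem_erase h)),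
      mul_assoc]

/-- A partial derivative of the permanent is the permanent of the matrix where one row is
replaced by a unit vector. -/
theorem eval_pderiv_permPoly {K : Type} [Field K] (n : ℕ) (M : Fin n × Fin n → K) (i j : Fin n) :
    eval M (pderiv (i, j) (permPoly K n)) =
      (Matrix.of fun r c : Fin n =>
        if r = i then (if c = j then 1 else 0) else M (r, c)).permanent := by
  classical
  unfold permPoly Matrix.permanent
  rw [map_sum, map_sum]
  refine Finset.sum_congr rfl fun σ _ => ?_
  simp only [Matrix.of_apply]
  rw [pderiv_finset_prod, map_sum]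
  have hterm : ∀ c : Fin n, eval M
      ((∏ x ∈ univ.erase c, (X (σ x, x) : MvPolynomial (Fin n × Fin n) K)) *
        (pderiv (i, j)) (X (σ c, c))) =
      if c = j then (if σ j = i then ∏ x ∈ univ.erase j, M (σ x, x) else 0) else 0 := by
    intro c
    rw [map_mul, pderiv_X, map_prod]
    simp only [eval_X]
    by_cases hc : c = j
    · subst hc
      by_cases hi : σ c = i
      · subst hi
        simp
      · have : ((σ c, c) : Fin n × Fin n) ≠ (i, c) := fun h => hi (congrArg Prod.fst h)
        simp [hi]
    · have : ((σ c, c) : Fin n × Fin n) ≠ (i, j) := fun h => hc (congrArg Prod.snd h)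
      simp [hc]
  rw [Finset.sum_congr rfl fun c _ => hterm c, Finset.sum_ite_eq' univ j]
  simp only [mem_univ, if_true]
  by_cases hi : σ j = i
  · rw [if_pos hi, ← Finset.mul_prod_erase univ _ (mem_univ j), if_pos hi, if_pos rfl, one_mul]
    refine Finset.prod_congr rfl fun x hx => ?_
    have hx' : x ≠ j := (Finset.mem_erase.1 hx).1
    have : σ x ≠ i := fun h => hx' (σ.injective (h.trans hi.symm))
    rw [if_neg this]
  · rw [if_neg hi]
    symm
    refine Finset.prod_eq_zero (mem_univ (σ.symm i)) ?_
    have : σ.symm i ≠ j := fun h => hi (by rw [← h]; simp)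
    simp [this]

end Pool.Agent.Helper71.Fml
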